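import Mathlib
import Pool.Agent.EDG.StmtsC

set_option autoImplicit false

/-! Row PRX of the squad EDG: periodic points of `x ^ 2 - s ^ 2`. -/

namespace Pool.Agent.EDG.H65

open Pool.Agent.EDG Pool.Agent.EDG.C

theorem prx : C.PrxStmt := by
  intro s n x hs hn hper
  obtain ⟨f, hf⟩ : ∃ f : ℂ → ℂ, f = fc (-(s : ℂ) ^ 2) := ⟨_, rfl⟩
  rw [← hf] at hper ⊢
  have hfy : ∀ y : ℂ, f y = (y - s) * (y + s) := by
    intro y
    rw [hf]
    unfold fc
    ring
  have hs0 : (0 : ℝ) < s := by linarith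
  have hP : Function.IsPeriodicPt f n x := hper
  obtain ⟨j0, hj0, hmax⟩ := Finset.exists_max_image (Finset.range n) (fun j => ‖f^[j] x‖)
    ⟨0, Finset.mem_range.mpr hn⟩
  have hall : ∀ j, ‖f^[j] x‖ ≤ ‖f^[j0] x‖ := by
    intro j
    rw [← hP.iterate_mod_apply j]
    exact hmax _ (Finset.mem_range.mpr (Nat.mod_lt j hn))
  have hM : ‖f^[j0] x‖ ≤ s + 1 := by
    by_contra hcon
    push Not at hcon
    have h1 : ‖f^[j0] x‖ ^ 2 ≤ ‖f^[j0] x‖ + s ^ 2 := by
      have h2 : f^[j0] x ^ 2 = f^[j0 + 1] x + (s : ℂ) ^ 2 := by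
        rw [Function.iterate_succ_apply', hfy]
        ring
      calc ‖f^[j0] x‖ ^ 2 = ‖f^[j0 + 1] x + (s : ℂ) ^ 2‖ := by rw [← norm_pow, h2]
        _ ≤ ‖f^[j0 + 1] x‖ + ‖(s : ℂ) ^ 2‖ := norm_add_le _ _
        _ ≤ ‖f^[j0] x‖ + s ^ 2 := by
            have h3 : ‖(s : ℂ) ^ 2‖ = s ^ 2 := by
              rw [norm_pow, Complex.norm_real, Real.norm_eq_abs, sq_abs]
            rw [h3]
            have := hall (j0 + 1)
            linarith
    nlinarith
  have hbd : ∀ j, ‖f^[j] x‖ ≤ s + 1 := fun j => (hall j).trans hM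
  have hpos : ∀ y : ℂ, ‖f y‖ ≤ s + 1 → 0 ≤ y.re → ‖y - s‖ ≤ 5 / 4 := by
    intro y hy hre
    have h1 : s ≤ ‖y + s‖ := by
      have h2 := Complex.abs_re_le_norm (y + s)
      have h3 : (y + (s : ℂ)).re = y.re + s := by simp
      rw [h3] at h2
      have h4 := le_abs_self (y.re + s)
      linarith
    rw [hfy, norm_mul] at hy
    have h5 : ‖y - s‖ * s ≤ ‖y - s‖ * ‖y + s‖ := mul_le_mul_of_nonneg_left h1 (norm_nonneg _)
    by_contra hcon
    push Not at hcon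
    nlinarith
  have hneg : ∀ y : ℂ, ‖f y‖ ≤ s + 1 → y.re < 0 → ‖y + s‖ ≤ 5 / 4 := by
    intro y hy hre
    have h1 : s ≤ ‖y - s‖ := by
      have h2 := Complex.abs_re_le_norm (y - s)
      have h3 : (y - (s : ℂ)).re = y.re - s := by simp
      rw [h3] at h2
      have h4 := neg_le_abs (y.re - s)
      linarith
    rw [hfy, norm_mul] at hy
    have h5 : s * ‖y + s‖ ≤ ‖y - s‖ * ‖y + s‖ := mul_le_mul_of_nonneg_right h1 (norm_nonneg _)
    by_contra hcon
    push Not at hcon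
    nlinarith
  intro j
  have hj1 : ‖f (f^[j] x)‖ ≤ s + 1 := by
    have h := hbd (j + 1)
    rw [Function.iterate_succ_apply'] at h
    exact h
  refine ⟨hbd j, ?_, hpos _ hj1, hneg _ hj1⟩
  rw [norm_mul, Complex.norm_ofNat]
  have hsn : ‖(s : ℂ)‖ = s := by
    rw [Complex.norm_real, Real.norm_eq_abs, abs_of_pos hs0]
  rcases le_or_gt 0 (f^[j] x).re with hre | hre
  · have h1 := hpos _ hj1 hre
    have h2 : ‖(s : ℂ)‖ ≤ ‖f^[j] x‖ + ‖f^[j] x - s‖ := by
      have h3 := norm_sub_le (f^[j] x) (f^[j] x - s)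
      have h4 : f^[j] x - (f^[j] x - (s : ℂ)) = s := by ring
      rw [h4] at h3
      exact h3
    rw [hsn] at h2
    linarith
  · have h1 := hneg _ hj1 hre
    have h2 : ‖(s : ℂ)‖ ≤ ‖f^[j] x + s‖ + ‖f^[j] x‖ := by
      have h3 := norm_sub_le (f^[j] x + s) (f^[j] x)
      have h4 : f^[j] x + (s : ℂ) - f^[j] x = s := by ring
      rw [h4] at h3
      exact h3
    rw [hsn] at h2
    linarith

end Pool.Agent.EDG.H65
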